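import Mathlib

/-!
# Potential theory on locally finite multigraphs given by darts
(Module T2 of the plan for MP_f07f0f_pr.)
-/

namespace Pool.Agent.Helper97.Speed

open MeasureTheory Filter Topology ENNReal

/-- A locally finite multigraph on the vertex set `ℕ`, given by darts. -/
structure Net where
  E : Set ℕ
  rev : ℕ → ℕ
  org : ℕ → ℕ
  rev_mem : ∀ d ∈ E, rev d ∈ E
  rev_rev : ∀ d ∈ E, rev (rev d) = d
  fin : ∀ x, {d | d ∈ E ∧ org d = x}.Finite

namespace Net

variable (N : Net)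

/-- darts with origin `x` -/
noncomputable def out (x : ℕ) : Finset ℕ := (N.fin x).toFinset

/-- twice the Dirichlet energy -/
noncomputable def energy (f : ℕ → ℝ) : ℝ≥0∞ :=
  ∑' d : N.E, ENNReal.ofReal ((f (N.org (N.rev d)) - f (N.org d)) ^ 2)

/-- (twice the) capacity of a finite set of vertices -/
noncomputable def cap (A : Finset ℕ) : ℝ≥0∞ :=
  ⨅ (f : ℕ → ℝ) (_ : (Function.support f).Finite) (_ : ∀ x ∈ A, f x = 1), N.energy f

noncomputable def vol (K : Finset ℕ) : ℕ := ∑ x ∈ K, (N.out x).card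

noncomputable def bdry (K : Finset ℕ) : ℕ :=
  {d | d ∈ N.E ∧ N.org d ∈ K ∧ N.org (N.rev d) ∉ K}.ncard

/-- `K` contains `A`, and every vertex of `K` is joined to `A` by a path inside `K`. -/
def Attached (A K : Finset ℕ) : Prop :=
  A ⊆ K ∧ ∀ x ∈ K, ∃ a ∈ A,
    Relation.ReflTransGen (fun u v => v ∈ K ∧ ∃ d ∈ N.E, N.org d = u ∧ N.org (N.rev d) = v) x a

/-! ### Finite sums over darts -/

lemma mem_out {x d : ℕ} : d ∈ N.out x ↔ d ∈ N.E ∧ N.org d = x := by
  simp [out]

/-- darts touching the finite set `S` -/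
noncomputable def touch (S : Finset ℕ) : Finset ℕ :=
  S.biUnion N.out ∪ (S.biUnion N.out).image N.rev

lemma mem_touch {S : Finset ℕ} {d : ℕ} :
    d ∈ N.touch S ↔ d ∈ N.E ∧ (N.org d ∈ S ∨ N.org (N.rev d) ∈ S) := by
  simp only [touch, Finset.mem_union, Finset.mem_biUnion, Finset.mem_image, mem_out]
  constructor
  · rintro (⟨x, hx, hd, rfl⟩ | ⟨e, ⟨x, hx, he, rfl⟩, rfl⟩)
    · exact ⟨hd, Or.inl hx⟩
    · refine ⟨N.rev_mem e he, Or.inr ?_⟩
      rw [N.rev_rev e he]
      exact hx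
  · rintro ⟨hd, h | h⟩
    · exact Or.inl ⟨_, h, hd, rfl⟩
    · exact Or.inr ⟨N.rev d, ⟨_, h, N.rev_mem d hd, rfl⟩, N.rev_rev d hd⟩

lemma rev_mem_touch {S : Finset ℕ} {d : ℕ} (h : d ∈ N.touch S) : N.rev d ∈ N.touch S := by
  rw [mem_touch] at h ⊢
  refine ⟨N.rev_mem d h.1, ?_⟩
  rw [N.rev_rev d h.1]
  exact h.2.symm

lemma sum_touch_rev (S : Finset ℕ) (F : ℕ → ℝ) :
    ∑ d ∈ N.touch S, F (N.rev d) = ∑ d ∈ N.touch S, F d := by
  refine Finset.sum_nbij' N.rev N.rev ?_ ?_ ?_ ?_ ?_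
  · intro d hd; exact N.rev_mem_touch hd
  · intro d hd; exact N.rev_mem_touch hd
  · intro d hd; exact N.rev_rev d (N.mem_touch.1 hd).1
  · intro d hd; exact N.rev_rev d (N.mem_touch.1 hd).1
  · intro d hd; rfl

lemma sum_touch_mul (S : Finset ℕ) (φ : ℕ → ℝ) (hφ : ∀ x ∉ S, φ x = 0) (F : ℕ → ℝ) :
    ∑ d ∈ N.touch S, φ (N.org d) * F d = ∑ x ∈ S, φ x * ∑ d ∈ N.out x, F d := by
  have h1 : ∑ d ∈ N.touch S, φ (N.org d) * F d =
      ∑ d ∈ (N.touch S).filter (fun d => N.org d ∈ S), φ (N.org d) * F d := by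
    rw [Finset.sum_filter]
    refine Finset.sum_congr rfl fun d _ => ?_
    split_ifs with h
    · rfl
    · rw [hφ _ h, zero_mul]
  rw [h1]
  have h2 : ∀ d ∈ (N.touch S).filter (fun d => N.org d ∈ S), N.org d ∈ S := by
    intro d hd
    exact (Finset.mem_filter.1 hd).2
  rw [← Finset.sum_fiberwise_of_maps_to h2]
  refine Finset.sum_congr rfl fun x hx => ?_
  rw [Finset.mul_sum]
  have h3 : ((N.touch S).filter (fun d => N.org d ∈ S)).filter (fun d => N.org d = x) = N.out x := by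
    ext d
    simp only [Finset.mem_filter, mem_touch, mem_out]
    constructor
    · rintro ⟨⟨⟨h, _⟩, _⟩, rfl⟩
      exact ⟨h, rfl⟩
    · rintro ⟨h, rfl⟩
      exact ⟨⟨⟨h, Or.inl hx⟩, hx⟩, rfl⟩
  rw [h3]
  refine Finset.sum_congr rfl fun d hd => ?_
  rw [(N.mem_out.1 hd).2]

lemma sum_touch_org (S : Finset ℕ) (φ : ℕ → ℝ) (hφ : ∀ x ∉ S, φ x = 0) :
    ∑ d ∈ N.touch S, φ (N.org d) = ∑ x ∈ S, (N.out x).card * φ x := by
  have := N.sum_touch_mul S φ hφ (fun _ => 1)
  simp only [mul_one, Finset.sum_const, nsmul_eq_mul] at this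
  rw [this]
  exact Finset.sum_congr rfl fun x _ => mul_comm _ _

lemma sum_touch_tgt (S : Finset ℕ) (φ : ℕ → ℝ) :
    ∑ d ∈ N.touch S, φ (N.org (N.rev d)) = ∑ d ∈ N.touch S, φ (N.org d) :=
  N.sum_touch_rev S (fun d => φ (N.org d))

lemma energy_eq (f : ℕ → ℝ) (S : Finset ℕ) (hS : ∀ x ∉ S, f x = 0) :
    N.energy f =
      ENNReal.ofReal (∑ d ∈ N.touch S, (f (N.org (N.rev d)) - f (N.org d)) ^ 2) := by
  rw [energy, tsum_subtype N.E (fun d => ENNReal.ofReal ((f (N.org (N.rev d)) - f (N.org d)) ^ 2)),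
    tsum_eq_sum (s := N.touch S), ENNReal.ofReal_sum_of_nonneg (fun _ _ => sq_nonneg _)]
  · refine Finset.sum_congr rfl fun d hd => ?_
    rw [Set.indicator_of_mem (N.mem_touch.1 hd).1]
  · intro d hd
    rw [mem_touch] at hd
    by_cases hE : d ∈ N.E
    · rw [Set.indicator_of_mem hE]
      have h1 : N.org d ∉ S := fun h => hd ⟨hE, Or.inl h⟩
      have h2 : N.org (N.rev d) ∉ S := fun h => hd ⟨hE, Or.inr h⟩
      rw [hS _ h1, hS _ h2]
      simp
    · rw [Set.indicator_of_notMem hE]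

/-! ### Expansion implies a lower bound on the capacity -/

/-- Co-area inequality. -/
lemma coarea (A : Finset ℕ) (ε : ℝ) 
    (h : ∀ K, N.Attached A K → ε * N.vol K ≤ N.bdry K) (S : Finset ℕ) (g : ℕ → ℝ)
    (hS : ∀ x ∉ S, g x = 0) (h0 : ∀ x, 0 ≤ g x) (h1 : ∀ x, g x ≤ 1)
    (hatt : ∀ s : ℝ, 0 ≤ s → s < 1 → N.Attached A (S.filter (fun x => s < g x))) :
    ε * ∑ x ∈ S, (N.out x).card * g x ≤
      ∑ d ∈ N.touch S, max (g (N.org d) - g (N.org (N.rev d))) 0 := by
  classical
  have hint : ∀ a b : ℝ, Integrable ((Set.Ico b a).indicator (1 : ℝ → ℝ)) := by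
    intro a b
    rw [integrable_indicator_iff measurableSet_Ico]
    exact integrableOn_const (by simp)
  have hval : ∀ a b : ℝ, ∫ s, (Set.Ico b a).indicator (1 : ℝ → ℝ) s = max (a - b) 0 := by
    intro a b
    rw [integral_indicator_one measurableSet_Ico, Measure.real, Real.volume_Ico,
      ENNReal.toReal_ofReal']
  have hR : ∑ d ∈ N.touch S, max (g (N.org d) - g (N.org (N.rev d))) 0 =
      ∫ s, ∑ d ∈ N.touch S,
        (Set.Ico (g (N.org (N.rev d))) (g (N.org d))).indicator (1 : ℝ → ℝ) s := by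
    rw [integral_finsetSum _ (fun d _ => hint _ _)]
    exact Finset.sum_congr rfl fun d _ => (hval _ _).symm
  have hL : ε * ∑ x ∈ S, (N.out x).card * g x =
      ∫ s, ε * ∑ x ∈ S, (N.out x).card * (Set.Ico 0 (g x)).indicator (1 : ℝ → ℝ) s := by
    rw [integral_const_mul, integral_finsetSum _ (fun d _ => (hint _ _).const_mul _)]
    congr 1
    refine Finset.sum_congr rfl fun x _ => ?_
    rw [integral_const_mul, hval, sub_zero, max_eq_left (h0 x)]
  rw [hL, hR]
  refine integral_mono ?_ ?_ ?_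
  · exact (integrable_finsetSum _ (fun d _ => (hint _ _).const_mul _)).const_mul _
  · exact integrable_finsetSum _ (fun d _ => hint _ _)
  intro s
  simp only
  by_cases hs : 0 ≤ s ∧ s < 1
  · have hK := h _ (hatt s hs.1 hs.2)
    set K := S.filter (fun x => s < g x) with hKdef
    have e1 : ∑ x ∈ S, ((N.out x).card : ℝ) * (Set.Ico 0 (g x)).indicator (1 : ℝ → ℝ) s =
        N.vol K := by
      rw [vol, hKdef, Finset.sum_filter, Nat.cast_sum]
      refine Finset.sum_congr rfl fun x _ => ?_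
      by_cases hx : s < g x
      · rw [Set.indicator_of_mem (show s ∈ Set.Ico 0 (g x) from ⟨hs.1, hx⟩), if_pos hx]
        simp
      · rw [Set.indicator_of_notMem (fun h' => hx h'.2), if_neg hx]
        simp
    have e2 : ∑ d ∈ N.touch S,
        (Set.Ico (g (N.org (N.rev d))) (g (N.org d))).indicator (1 : ℝ → ℝ) s = N.bdry K := by
      have : {d | d ∈ N.E ∧ N.org d ∈ K ∧ N.org (N.rev d) ∉ K} =
          ((N.touch S).filter (fun d => s ∈ Set.Ico (g (N.org (N.rev d))) (g (N.org d))) :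
            Finset ℕ) := by
        ext d
        simp only [Set.mem_ofPred_eq, Finset.coe_filter, mem_touch, hKdef, Finset.mem_filter,
          Set.mem_Ico]
        constructor
        · rintro ⟨h1, ⟨h2, h3⟩, h4⟩
          refine ⟨⟨h1, Or.inl h2⟩, ?_, h3⟩
          by_contra h5
          push Not at h5
          apply h4
          refine ⟨?_, h5⟩
          by_contra h6
          rw [hS _ h6] at h5
          linarith
        · rintro ⟨⟨h1, h2⟩, h3, h4⟩
          refine ⟨h1, ⟨?_, h4⟩, fun h5 => absurd h5.2 (not_lt.2 h3)⟩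
          by_contra h6
          rw [hS _ h6] at h4
          linarith
      rw [bdry, this, Set.ncard_coe_finset, Finset.card_filter]
      push_cast
      refine Finset.sum_congr rfl fun d _ => ?_
      by_cases hd : s ∈ Set.Ico (g (N.org (N.rev d))) (g (N.org d))
      · rw [Set.indicator_of_mem hd, if_pos hd]; rfl
      · rw [Set.indicator_of_notMem hd, if_neg hd]
    rw [e1, e2]
    exact hK
  · have e1 : ∑ x ∈ S, ((N.out x).card : ℝ) * (Set.Ico 0 (g x)).indicator (1 : ℝ → ℝ) s = 0 := by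
      refine Finset.sum_eq_zero fun x _ => ?_
      rw [Set.indicator_of_notMem, mul_zero]
      intro h'
      exact hs ⟨h'.1, lt_of_lt_of_le h'.2 (h1 x)⟩
    rw [e1, mul_zero]
    exact Finset.sum_nonneg fun d _ => Set.indicator_nonneg (fun _ _ => zero_le_one) _

/-- the relation: `x` is joined to `A` inside the set where `f ≥ s` -/
def Joined (A : Finset ℕ) (f : ℕ → ℝ) (s : ℝ) (x : ℕ) : Prop :=
  s ≤ f x ∧ ∃ a ∈ A,
    Relation.ReflTransGen (fun u v => s ≤ f v ∧ ∃ d ∈ N.E, N.org d = u ∧ N.org (N.rev d) = v) x a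

/-- levels at which `x` is joined to `A` -/
def levels (A : Finset ℕ) (f : ℕ → ℝ) (x : ℕ) : Set ℝ :=
  {s | 0 ≤ s ∧ s ≤ 1 ∧ (s = 0 ∨ N.Joined A f s x)}

noncomputable def lev (A : Finset ℕ) (f : ℕ → ℝ) (x : ℕ) : ℝ := sSup (N.levels A f x)

variable {N}

lemma levels_bdd (A : Finset ℕ) (f : ℕ → ℝ) (x : ℕ) : BddAbove (N.levels A f x) :=
  ⟨1, fun _ hs => hs.2.1⟩

lemma zero_mem_levels (A : Finset ℕ) (f : ℕ → ℝ) (x : ℕ) : (0 : ℝ) ∈ N.levels A f x :=
  ⟨le_refl _, zero_le_one, Or.inl rfl⟩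

lemma lev_nonneg (A : Finset ℕ) (f : ℕ → ℝ) (x : ℕ) : 0 ≤ N.lev A f x :=
  le_csSup (levels_bdd A f x) (zero_mem_levels A f x)

lemma lev_le_one (A : Finset ℕ) (f : ℕ → ℝ) (x : ℕ) : N.lev A f x ≤ 1 :=
  csSup_le ⟨0, zero_mem_levels A f x⟩ fun _ hs => hs.2.1

lemma exists_of_lt_lev {A : Finset ℕ} {f : ℕ → ℝ} {x : ℕ} {t : ℝ} (ht : 0 ≤ t)
    (h : t < N.lev A f x) : ∃ s, t < s ∧ s ≤ 1 ∧ N.Joined A f s x := by
  obtain ⟨s, hs, hts⟩ := exists_lt_of_lt_csSup ⟨0, zero_mem_levels A f x⟩ h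
  refine ⟨s, hts, hs.2.1, ?_⟩
  rcases hs.2.2 with h0 | h0
  · exfalso
    rw [h0] at hts
    exact absurd hts (not_lt.2 ht)
  · exact h0

lemma le_lev {A : Finset ℕ} {f : ℕ → ℝ} {x : ℕ} {s : ℝ} (hs : s ≤ 1)
    (h : N.Joined A f s x) : s ≤ N.lev A f x := by
  by_cases h0 : 0 ≤ s
  · exact le_csSup (levels_bdd A f x) ⟨h0, hs, Or.inr h⟩
  · push Not at h0
    exact h0.le.trans (lev_nonneg A f x)

lemma lev_le_of_pos {A : Finset ℕ} {f : ℕ → ℝ} {x : ℕ} (h : 0 < N.lev A f x) :
    N.lev A f x ≤ f x := by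
  by_contra hc
  push Not at hc
  have hm : max (f x) 0 < N.lev A f x := max_lt hc h
  obtain ⟨s, hs, _, hj⟩ := exists_of_lt_lev (le_max_right _ _) hm
  exact absurd hj.1 (not_le.2 (lt_of_le_of_lt (le_max_left _ _) hs))

lemma joined_mono {A : Finset ℕ} {f : ℕ → ℝ} {x : ℕ} {s t : ℝ} (hst : s ≤ t)
    (h : N.Joined A f t x) : N.Joined A f s x := by
  obtain ⟨h1, a, ha, h2⟩ := h
  refine ⟨hst.trans h1, a, ha, ?_⟩
  exact Relation.ReflTransGen.mono (fun u v huv => ⟨hst.trans huv.1, huv.2⟩) _ _ h2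

lemma lev_adj {A : Finset ℕ} {f : ℕ → ℝ} {x y d : ℕ} (hd : d ∈ N.E) (hx : N.org d = x)
    (hy : N.org (N.rev d) = y) (hlt : N.lev A f y < N.lev A f x) :
    f y ≤ N.lev A f y := by
  by_contra hc
  push Not at hc
  have hm : N.lev A f y < min (N.lev A f x) (f y) := lt_min hlt hc
  obtain ⟨t, ht1, ht2⟩ := exists_between hm
  have h0 : 0 ≤ t := (lev_nonneg A f y).trans ht1.le
  obtain ⟨s, hs, hs1, hj⟩ := exists_of_lt_lev h0 (lt_of_lt_of_le ht2 (min_le_left _ _))
  have hj' := joined_mono hs.le hj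
  have hyj : N.Joined A f t y := by
    obtain ⟨h1, a, ha, h2⟩ := hj'
    refine ⟨ht2.le.trans (min_le_right _ _), a, ha, ?_⟩
    refine Relation.ReflTransGen.head ?_ h2
    refine ⟨h1, N.rev d, N.rev_mem d hd, hy, ?_⟩
    rw [N.rev_rev d hd]
    exact hx
  exact absurd (le_lev (hs.le.trans hs1) hyj) (not_le.2 ht1)

lemma lev_sq_le {A : Finset ℕ} {f : ℕ → ℝ} {d : ℕ} (hd : d ∈ N.E) :
    (N.lev A f (N.org (N.rev d)) - N.lev A f (N.org d)) ^ 2 ≤
      (f (N.org (N.rev d)) - f (N.org d)) ^ 2 := by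
  rcases lt_trichotomy (N.lev A f (N.org (N.rev d))) (N.lev A f (N.org d)) with h | h | h
  · have h1 := lev_adj hd rfl rfl h
    have h2 := lev_le_of_pos (lt_of_le_of_lt (lev_nonneg A f _) h)
    nlinarith
  · rw [h, sub_self]
    nlinarith [sq_nonneg (f (N.org (N.rev d)) - f (N.org d))]
  · have h1 := lev_adj (x := N.org (N.rev d)) (y := N.org d) (N.rev_mem d hd) rfl
      (by rw [N.rev_rev d hd]) h
    have h2 := lev_le_of_pos (lt_of_le_of_lt (lev_nonneg A f _) h)
    nlinarith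

lemma joined_of_reach {A : Finset ℕ} {f : ℕ → ℝ} {s : ℝ} {x a : ℕ} (ha : a ∈ A)
    (h : Relation.ReflTransGen
      (fun u v => s ≤ f v ∧ ∃ d ∈ N.E, N.org d = u ∧ N.org (N.rev d) = v) x a) (hx : s ≤ f x)
    (P : ℕ → Prop) (hP : ∀ y, N.Joined A f s y → P y) :
    Relation.ReflTransGen (fun u v => P v ∧ ∃ d ∈ N.E, N.org d = u ∧ N.org (N.rev d) = v) x a := by
  induction h using Relation.ReflTransGen.head_induction_on with
  | refl => exact Relation.ReflTransGen.refl
  | head h1 h2 ih =>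
    exact Relation.ReflTransGen.head ⟨hP _ ⟨h1.1, a, ha, h2⟩, h1.2⟩ (ih h1.1)

variable (N)

theorem cap_ge_of_expansion (A : Finset ℕ) (ε : ℝ) (hε : 0 < ε)
    (h : ∀ K, N.Attached A K → ε * N.vol K ≤ N.bdry K) :
    ENNReal.ofReal (ε ^ 2 * N.vol A) ≤ N.cap A := by
  classical
  refine le_iInf fun f => le_iInf fun hfin => le_iInf fun hfA => ?_
  set S : Finset ℕ := hfin.toFinset with hSdef
  have hfS : ∀ x ∉ S, f x = 0 := by
    intro x hx
    by_contra h0
    exact hx (by simpa [hSdef] using h0)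
  set g := N.lev A f with hg
  have hgS : ∀ x ∉ S, g x = 0 := by
    intro x hx
    by_contra h0
    have h1 : 0 < N.lev A f x := lt_of_le_of_ne (lev_nonneg A f x) (Ne.symm h0)
    have h2 := lev_le_of_pos h1
    rw [hfS x hx] at h2
    linarith
  have hAg : ∀ x ∈ A, g x = 1 := by
    intro x hx
    refine le_antisymm (lev_le_one A f x) (le_lev le_rfl ⟨(hfA x hx).ge, x, hx, ?_⟩)
    exact Relation.ReflTransGen.refl
  have hAS : A ⊆ S := by
    intro x hx
    by_contra h0
    have := hgS x h0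
    rw [hAg x hx] at this
    exact one_ne_zero this
  have hatt : ∀ s : ℝ, 0 ≤ s → s < 1 → N.Attached A (S.filter (fun x => s < g x ^ 2)) := by
    intro s hs0 hs1
    refine ⟨?_, ?_⟩
    · intro x hx
      rw [Finset.mem_filter]
      refine ⟨hAS hx, ?_⟩
      rw [hAg x hx]
      simpa using hs1
    · intro x hx
      rw [Finset.mem_filter] at hx
      have hlt : Real.sqrt s < N.lev A f x := by
        rw [Real.sqrt_lt' ]
        · exact hx.2
        · by_contra h0
          have : g x = 0 := le_antisymm (not_lt.1 h0) (lev_nonneg A f x)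
          have h3 := hx.2
          rw [this] at h3
          norm_num at h3
          linarith
      obtain ⟨t, ht, ht1, hj⟩ := exists_of_lt_lev (Real.sqrt_nonneg s) hlt
      obtain ⟨h1, a, ha, h2⟩ := hj
      refine ⟨a, ha, ?_⟩
      refine joined_of_reach ha h2 h1 _ ?_
      intro y hy
      have hy1 : t ≤ g y := le_lev ht1 hy
      have hy2 : Real.sqrt s < g y := lt_of_lt_of_le ht hy1
      have hy3 : s < g y ^ 2 := by
        rw [← Real.sqrt_lt' (lt_of_le_of_lt (Real.sqrt_nonneg s) hy2)]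
        exact hy2
      rw [Finset.mem_filter]
      refine ⟨?_, hy3⟩
      by_contra h0
      rw [hgS y h0] at hy3
      norm_num at hy3
      linarith
  have hco := N.coarea A ε h S (fun x => g x ^ 2) (fun x hx => by simp [hgS x hx])
    (fun x => sq_nonneg _) (fun x => by
      have h0 := lev_nonneg (N := N) A f x
      have h1 := lev_le_one (N := N) A f x
      change N.lev A f x ^ 2 ≤ 1
      nlinarith) hatt
  set M := ∑ x ∈ S, ((N.out x).card : ℝ) * g x ^ 2 with hM
  set P := ∑ d ∈ N.touch S, max (g (N.org d) ^ 2 - g (N.org (N.rev d)) ^ 2) 0 with hP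
  have hM1 : ∑ d ∈ N.touch S, g (N.org d) ^ 2 = M :=
    N.sum_touch_org S (fun x => g x ^ 2) (fun x hx => by simp [hgS x hx])
  have hM2 : ∑ d ∈ N.touch S, g (N.org (N.rev d)) ^ 2 = M := by
    rw [N.sum_touch_tgt S (fun x => g x ^ 2)]
    exact hM1
  have hP2 : ∑ d ∈ N.touch S, max (g (N.org (N.rev d)) ^ 2 - g (N.org d) ^ 2) 0 = P := by
    rw [hP, ← N.sum_touch_rev S (fun d => max (g (N.org d) ^ 2 - g (N.org (N.rev d)) ^ 2) 0)]
    refine Finset.sum_congr rfl fun d hd => ?_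
    rw [N.rev_rev d (N.mem_touch.1 hd).1]
  rw [N.energy_eq f S hfS]
  apply ENNReal.ofReal_le_ofReal
  set En := ∑ d ∈ N.touch S, (f (N.org (N.rev d)) - f (N.org d)) ^ 2 with hEn
  have key : 2 * P ≤ En / ε + ε * M := by
    have : 2 * P = ∑ d ∈ N.touch S, (max (g (N.org d) ^ 2 - g (N.org (N.rev d)) ^ 2) 0 +
        max (g (N.org (N.rev d)) ^ 2 - g (N.org d) ^ 2) 0) := by
      rw [Finset.sum_add_distrib, hP2, two_mul]
    rw [this]
    have hR : En / ε + ε * M = ∑ d ∈ N.touch S,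
        ((f (N.org (N.rev d)) - f (N.org d)) ^ 2 / ε +
          (ε / 2 * g (N.org d) ^ 2 + ε / 2 * g (N.org (N.rev d)) ^ 2)) := by
      rw [Finset.sum_add_distrib, Finset.sum_add_distrib, ← Finset.mul_sum, ← Finset.mul_sum,
        hM1, hM2, ← Finset.sum_div]
      ring
    rw [hR]
    refine Finset.sum_le_sum fun d hd => ?_
    have hE := (N.mem_touch.1 hd).1
    have h1 := lev_sq_le (A := A) (f := f) hE
    rw [← hg] at h1
    set a := g (N.org d)
    set b := g (N.org (N.rev d))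
    set w := (f (N.org (N.rev d)) - f (N.org d)) ^ 2
    have h2 : w / ε ≥ (b - a) ^ 2 / ε := by gcongr
    have h3 : ∀ u : ℝ, u ≤ (b - a) ^ 2 / ε + (ε / 2 * a ^ 2 + ε / 2 * b ^ 2) ↔
        ε * u ≤ (b - a) ^ 2 + ε ^ 2 / 2 * (a ^ 2 + b ^ 2) := by
      intro u
      rw [← mul_le_mul_iff_right₀ hε]
      have : ε * ((b - a) ^ 2 / ε + (ε / 2 * a ^ 2 + ε / 2 * b ^ 2)) =
          (b - a) ^ 2 + ε ^ 2 / 2 * (a ^ 2 + b ^ 2) := by
        field_simp
      rw [this]
    refine le_trans ?_ (add_le_add_left h2 _)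
    rw [h3]
    rcases le_total (a ^ 2) (b ^ 2) with hab | hab
    · rw [max_eq_right (by linarith), max_eq_left (by linarith)]
      nlinarith [sq_nonneg ((b - a) - ε / 2 * (a + b)), sq_nonneg (ε * (a - b))]
    · rw [max_eq_left (by linarith), max_eq_right (by linarith)]
      nlinarith [sq_nonneg ((a - b) - ε / 2 * (a + b)), sq_nonneg (ε * (a - b))]
  have hMA : (N.vol A : ℝ) ≤ M := by
    rw [vol, hM, Nat.cast_sum]
    have : ∑ x ∈ A, ((N.out x).card : ℝ) = ∑ x ∈ A, ((N.out x).card : ℝ) * g x ^ 2 := by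
      refine Finset.sum_congr rfl fun x hx => ?_
      rw [hAg x hx]; ring
    rw [this]
    exact Finset.sum_le_sum_of_subset_of_nonneg hAS fun x _ _ => by positivity
  have h4 : ε * M ≤ En / ε := by linarith
  rw [le_div_iff₀ hε] at h4
  nlinarith [sq_nonneg ε]

theorem cap_mono {N N' : Net} (hE : N'.E ⊆ N.E) (hrev : N'.rev = N.rev) (horg : N'.org = N.org)
    (A : Finset ℕ) : N'.cap A ≤ N.cap A := by
  refine iInf_mono fun f => iInf_mono fun _ => iInf_mono fun _ => ?_
  unfold energy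
  rw [hrev, horg]
  exact ENNReal.tsum_mono_subtype
    (fun d => ENNReal.ofReal ((f (N.org (N.rev d)) - f (N.org d)) ^ 2)) hE

/-- `N.Dist x n y`: there is a path with `n` darts from `x` to `y`. -/
inductive Walk : ℕ → ℕ → ℕ → Prop
  | nil (x : ℕ) : Walk x 0 x
  | cons {d n y : ℕ} : d ∈ N.E → Walk (N.org (N.rev d)) n y → Walk (N.org d) (n + 1) y

lemma exists_darts (f : ℕ → ℝ) {x n a : ℕ} (hw : N.Walk x n a)
    (hmin : ∀ m < n, ¬ N.Walk x m a) :
    ∃ D : Finset ℕ, (∀ d ∈ D, d ∈ N.E ∧ ∃ m ≤ n, N.Walk (N.org d) m a) ∧ D.card ≤ n ∧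
      |f x - f a| ≤ ∑ d ∈ D, |f (N.org (N.rev d)) - f (N.org d)| := by
  classical
  induction hw with
  | nil x => exact ⟨∅, by simp, by simp, by simp⟩
  | @cons d n y hd hw ih =>
    obtain ⟨D, hD1, hD2, hD3⟩ := ih (fun m hm hw' => hmin (m + 1) (by omega) (Walk.cons hd hw'))
    have hdD : d ∉ D := by
      intro h
      obtain ⟨_, m, hm, hm2⟩ := hD1 d h
      exact hmin m (by omega) hm2
    refine ⟨insert d D, ?_, ?_, ?_⟩
    · intro e he
      rw [Finset.mem_insert] at he
      rcases he with rfl | he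
      · exact ⟨hd, n + 1, le_rfl, Walk.cons hd hw⟩
      · obtain ⟨h1, m, hm, hm2⟩ := hD1 e he
        exact ⟨h1, m, by omega, hm2⟩
    · rw [Finset.card_insert_of_notMem hdD]
      omega
    · rw [Finset.sum_insert hdD]
      have h1 := abs_sub_le (f (N.org d)) (f (N.org (N.rev d))) (f y)
      rw [abs_sub_comm (f (N.org d)) (f (N.org (N.rev d)))] at h1
      linarith

theorem cap_singleton_ge (A : Finset ℕ) (hA : A.Nonempty) (v ℓ : ℕ) (hℓ : 0 < ℓ)
    (h : ∀ a ∈ A, ∃ n ≤ ℓ, N.Walk v n a) :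
    min (ENNReal.ofReal (1 / (4 * ℓ))) (N.cap A / 4) ≤ N.cap {v} := by
  classical
  refine le_iInf fun f => le_iInf fun hfin => le_iInf fun hfv => ?_
  have hv : f v = 1 := hfv v (Finset.mem_singleton_self v)
  by_cases hc : ∀ a ∈ A, 1 / 2 ≤ f a
  · refine (min_le_right _ _).trans ?_
    have h1 : N.cap A ≤ N.energy (fun x => min (2 * f x) 1) := by
      refine iInf_le_of_le _ (iInf_le_of_le ?_ (iInf_le_of_le ?_ le_rfl))
      · refine hfin.subset ?_
        intro x hx
        rw [Function.mem_support] at hx ⊢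
        intro h0
        apply hx
        rw [h0]
        norm_num
      · intro a ha
        have := hc a ha
        exact min_eq_right (by linarith)
    have h2 : N.energy (fun x => min (2 * f x) 1) ≤ 4 * N.energy f := by
      unfold energy
      rw [← ENNReal.tsum_mul_left]
      refine ENNReal.tsum_le_tsum fun d => ?_
      have : (4 : ℝ≥0∞) = ENNReal.ofReal 4 := by norm_num
      rw [this, ← ENNReal.ofReal_mul (by norm_num)]
      apply ENNReal.ofReal_le_ofReal
      set a := f (N.org (N.rev d))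
      set b := f (N.org d)
      have h3 : |min (2 * a) 1 - min (2 * b) 1| ≤ |2 * a - 2 * b| := by
        refine (abs_min_sub_min_le_max _ _ _ _).trans ?_
        simp
      have h4 := sq_le_sq.2 h3
      calc (min (2 * a) 1 - min (2 * b) 1) ^ 2 ≤ (2 * a - 2 * b) ^ 2 := h4
        _ = 4 * (a - b) ^ 2 := by ring
    calc N.cap A / 4 ≤ (4 * N.energy f) / 4 := ENNReal.div_le_div_right (h1.trans h2) _
      _ = N.energy f := by
        rw [mul_comm, mul_div_assoc, ENNReal.div_self (by norm_num) (by norm_num), mul_one]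
  · push Not at hc
    obtain ⟨a, ha, hfa⟩ := hc
    refine (min_le_left _ _).trans ?_
    obtain ⟨n, hn, hw⟩ := h a ha
    have hex : ∃ n, N.Walk v n a := ⟨n, hw⟩
    obtain ⟨D, hD1, hD2, hD3⟩ := N.exists_darts f (Nat.find_spec hex)
      (fun m hm => Nat.find_min hex hm)
    have hDℓ : (D.card : ℝ) ≤ ℓ := by
      exact_mod_cast hD2.trans ((Nat.find_min' hex hw).trans hn)
    have hsum : ENNReal.ofReal (∑ d ∈ D, (f (N.org (N.rev d)) - f (N.org d)) ^ 2) ≤
        N.energy f := by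
      rw [ENNReal.ofReal_sum_of_nonneg (fun _ _ => sq_nonneg _), energy,
        tsum_subtype N.E (fun d => ENNReal.ofReal ((f (N.org (N.rev d)) - f (N.org d)) ^ 2))]
      refine le_trans (le_of_eq ?_) (ENNReal.sum_le_tsum D)
      refine Finset.sum_congr rfl fun d hd => ?_
      rw [Set.indicator_of_mem (hD1 d hd).1]
    refine le_trans (ENNReal.ofReal_le_ofReal ?_) hsum
    have h1 : (1 : ℝ) / 2 ≤ ∑ d ∈ D, |f (N.org (N.rev d)) - f (N.org d)| := by
      refine le_trans ?_ hD3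
      rw [hv]
      exact le_trans (by linarith) (le_abs_self _)
    have h2 := Finset.sum_le_sum (s := D) (fun d _ => le_refl (|f (N.org (N.rev d)) - f (N.org d)|))
    have h3 : (∑ d ∈ D, |f (N.org (N.rev d)) - f (N.org d)|) ^ 2 ≤
        D.card * ∑ d ∈ D, (f (N.org (N.rev d)) - f (N.org d)) ^ 2 := by
      have := sq_sum_le_card_mul_sum_sq (s := D)
        (f := fun d => |f (N.org (N.rev d)) - f (N.org d)|)
      simpa [sq_abs] using this
    have h4 : (0 : ℝ) ≤ ∑ d ∈ D, (f (N.org (N.rev d)) - f (N.org d)) ^ 2 :=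
      Finset.sum_nonneg fun _ _ => sq_nonneg _
    have hℓ' : (0 : ℝ) < ℓ := by exact_mod_cast hℓ
    rw [div_le_iff₀ (by positivity)]
    nlinarith

/-- `N.hit A n x`: probability that simple random walk started at `x` hits `A` within `n` steps -/
noncomputable def hit (A : Finset ℕ) : ℕ → ℕ → ℝ
  | 0, x => if x ∈ A then 1 else 0
  | n + 1, x => if x ∈ A then 1 else
      (∑ d ∈ N.out x, hit A n (N.org (N.rev d))) / (N.out x).card

lemma hit_of_mem {A : Finset ℕ} {x : ℕ} (hx : x ∈ A) (n : ℕ) : N.hit A n x = 1 := by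
  cases n <;> simp [hit, hx]

lemma hit_succ {A : Finset ℕ} {x : ℕ} (hx : x ∉ A) (n : ℕ) : N.hit A (n + 1) x =
    (∑ d ∈ N.out x, N.hit A n (N.org (N.rev d))) / (N.out x).card := by
  simp [hit, hx]

lemma hit_nonneg (A : Finset ℕ) (n x : ℕ) : 0 ≤ N.hit A n x := by
  induction n generalizing x with
  | zero => simp only [hit]; split_ifs <;> norm_num
  | succ n ih =>
    by_cases hx : x ∈ A
    · rw [N.hit_of_mem hx]; norm_num
    · rw [N.hit_succ hx]
      exact div_nonneg (Finset.sum_nonneg fun _ _ => ih _) (Nat.cast_nonneg _)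

lemma hit_le_succ (A : Finset ℕ) (n x : ℕ) : N.hit A n x ≤ N.hit A (n + 1) x := by
  induction n generalizing x with
  | zero =>
    by_cases hx : x ∈ A
    · rw [N.hit_of_mem hx, N.hit_of_mem hx]
    · have : N.hit A 0 x = 0 := by simp [hit, hx]
      rw [this]
      exact N.hit_nonneg A _ x
  | succ n ih =>
    by_cases hx : x ∈ A
    · rw [N.hit_of_mem hx, N.hit_of_mem hx]
    · rw [N.hit_succ hx, N.hit_succ hx]
      gcongr with d hd
      exact ih _

lemma hit_support (A : Finset ℕ) (n : ℕ) : (Function.support (N.hit A n)).Finite := by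
  classical
  induction n with
  | zero =>
    refine A.finite_toSet.subset ?_
    intro x hx
    rw [Function.mem_support] at hx
    by_contra h0
    apply hx
    simp only [hit]
    rw [if_neg (by simpa using h0)]
  | succ n ih =>
    refine (A.finite_toSet.union
      (ih.toFinset.biUnion (fun y => (N.out y).image (fun e => N.org (N.rev e)))).finite_toSet).subset
      ?_
    intro x hx
    rw [Function.mem_support] at hx
    by_cases hxA : x ∈ A
    · exact Or.inl hxA
    · right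
      rw [N.hit_succ hxA] at hx
      have : ∑ d ∈ N.out x, N.hit A n (N.org (N.rev d)) ≠ 0 := by
        intro h0
        rw [h0, zero_div] at hx
        exact hx rfl
      obtain ⟨d, hd, hd2⟩ := Finset.exists_ne_zero_of_sum_ne_zero this
      rw [mem_out] at hd
      simp only [Finset.coe_biUnion, Set.Finite.coe_toFinset, Set.mem_iUnion, Finset.coe_image,
        Set.mem_image, Finset.mem_coe, mem_out]
      refine ⟨N.org (N.rev d), hd2, N.rev d, ⟨N.rev_mem d hd.1, rfl⟩, ?_⟩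
      rw [N.rev_rev d hd.1]
      exact hd.2

theorem cap_le_escape (A : Finset ℕ) (n : ℕ) :
    N.cap A ≤ ENNReal.ofReal
      (2 * ∑ x ∈ A, ∑ d ∈ N.out x, (1 - N.hit A n (N.org (N.rev d)))) := by
  classical
  set f := N.hit A n with hf
  have hfin : (Function.support f).Finite := N.hit_support A n
  have h1 : N.cap A ≤ N.energy f :=
    iInf_le_of_le _ (iInf_le_of_le hfin (iInf_le_of_le (fun x hx => N.hit_of_mem hx n) le_rfl))
  refine h1.trans ?_
  set S : Finset ℕ := hfin.toFinset with hSdef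
  have hfS : ∀ x ∉ S, f x = 0 := by
    intro x hx
    by_contra h0
    exact hx (by simpa [hSdef] using h0)
  have hAS : A ⊆ S := by
    intro x hx
    by_contra h0
    have := hfS x h0
    rw [hf, N.hit_of_mem hx] at this
    exact one_ne_zero this
  rw [N.energy_eq f S hfS]
  apply ENNReal.ofReal_le_ofReal
  have h2 : ∑ d ∈ N.touch S, (f (N.org (N.rev d)) - f (N.org d)) ^ 2 =
      2 * ∑ d ∈ N.touch S, f (N.org d) * (f (N.org d) - f (N.org (N.rev d))) := by
    have e1 : ∑ d ∈ N.touch S, f (N.org (N.rev d)) * (f (N.org (N.rev d)) - f (N.org d)) =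
        ∑ d ∈ N.touch S, f (N.org d) * (f (N.org d) - f (N.org (N.rev d))) := by
      rw [← N.sum_touch_rev S (fun d => f (N.org d) * (f (N.org d) - f (N.org (N.rev d))))]
      refine Finset.sum_congr rfl fun d hd => ?_
      rw [N.rev_rev d (N.mem_touch.1 hd).1]
    rw [two_mul]
    nth_rewrite 1 [← e1]
    rw [← Finset.sum_add_distrib]
    refine Finset.sum_congr rfl fun d _ => ?_
    ring
  rw [h2, N.sum_touch_mul S f hfS (fun d => f (N.org d) - f (N.org (N.rev d)))]
  have h3 : ∑ x ∈ S, f x * ∑ d ∈ N.out x, (f (N.org d) - f (N.org (N.rev d))) ≤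
      ∑ x ∈ A, ∑ d ∈ N.out x, (1 - N.hit A n (N.org (N.rev d))) := by
    rw [← Finset.sum_sdiff hAS]
    have h4 : ∑ x ∈ S \ A, f x * ∑ d ∈ N.out x, (f (N.org d) - f (N.org (N.rev d))) ≤ 0 := by
      refine Finset.sum_nonpos fun x hx => ?_
      have hxA := (Finset.mem_sdiff.1 hx).2
      refine mul_nonpos_of_nonneg_of_nonpos (N.hit_nonneg A n x) ?_
      have h5 : ∑ d ∈ N.out x, (f (N.org d) - f (N.org (N.rev d))) =
          (N.out x).card * f x - ∑ d ∈ N.out x, f (N.org (N.rev d)) := by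
        rw [Finset.sum_sub_distrib]
        congr 1
        rw [Finset.sum_congr rfl (fun d hd => by rw [(N.mem_out.1 hd).2])]
        simp
      rw [h5]
      by_cases hc : (N.out x).card = 0
      · rw [Finset.card_eq_zero] at hc
        simp [hc]
      · have hc' : (0 : ℝ) < (N.out x).card := by positivity
        have h6 := N.hit_le_succ A n x
        rw [N.hit_succ hxA, le_div_iff₀ hc'] at h6
        rw [← hf] at h6
        linarith
    have h7 : ∑ x ∈ A, f x * ∑ d ∈ N.out x, (f (N.org d) - f (N.org (N.rev d))) =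
        ∑ x ∈ A, ∑ d ∈ N.out x, (1 - N.hit A n (N.org (N.rev d))) := by
      refine Finset.sum_congr rfl fun x hx => ?_
      rw [show f x = 1 from N.hit_of_mem hx n, one_mul]
      refine Finset.sum_congr rfl fun d hd => ?_
      rw [(N.mem_out.1 hd).2, show f x = 1 from N.hit_of_mem hx n]
    linarith
  linarith

end Net

end Pool.Agent.Helper97.Speed
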